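import Mathlib

set_option autoImplicit false

namespace Pool.Agent.Results.MP_c7efa6_co.SquarePyramid

/-- A poset has the fixed point property if every order-preserving self-map has a fixed point. -/
def HasFPP (P : Type) [PartialOrder P] : Prop :=
  ∀ f : P → P, Monotone f → ∃ p : P, f p = p

/-- A simple graph bundled with its vertex type. -/
structure Graph where
  /-- the vertices -/
  V : Type
  /-- the adjacency -/
  G : SimpleGraph V

/-- The clique graph: its vertices are the maximal cliques, and two distinct maximal cliques are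
adjacent if and only if they share a vertex. -/
def cliqueGraph (X : Graph) : Graph where
  V := {Q : Set X.V // Maximal (fun s : Set X.V => X.G.IsClique s) Q}
  G := SimpleGraph.fromRel fun Q R => (Q.1 ∩ R.1).Nonempty

/-- The iterated clique graphs. -/
def iterClique : ℕ → Graph → Graph
  | 0, X => X
  | n + 1, X => cliqueGraph (iterClique n X)

/-- The comparability graph of a poset. -/
def comparabilityGraph (P : Type) [PartialOrder P] : Graph where
  V := P
  G := SimpleGraph.fromRel fun a b => a ≤ b

/-- Some iterated clique graph of the comparability graph has exactly one vertex. -/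
def HasCollapsingCliqueGraphs (P : Type) [PartialOrder P] : Prop :=
  ∃ n : ℕ, Nat.card (iterClique n (comparabilityGraph P)).V = 1

/-! ### A persistent obstruction to collapsing -/

/-- The graph has a vertex and a self-map preserving adjacency-or-equality that moves every vertex
to a different vertex not adjacent to it. -/
def Far (X : Graph) : Prop :=
  Nonempty X.V ∧ ∃ f : X.V → X.V, (∀ u v, X.G.Adj u v → f u = f v ∨ X.G.Adj (f u) (f v)) ∧
    ∀ v, f v ≠ v ∧ ¬ X.G.Adj v (f v)

theorem exists_maximal_clique (X : Graph) (s : Set X.V) (hs : X.G.IsClique s) :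
    ∃ t, s ⊆ t ∧ Maximal (fun s : Set X.V => X.G.IsClique s) t := by
  apply zorn_subset_nonempty {s : Set X.V | X.G.IsClique s} _ s hs
  intro c hc hchain _
  refine ⟨⋃₀ c, ?_, fun s hs => Set.subset_sUnion_of_mem hs⟩
  intro u hu v hv huv
  obtain ⟨a, ha, hua⟩ := hu
  obtain ⟨b, hb, hvb⟩ := hv
  rcases hchain.total ha hb with h | h
  · exact hc hb (h hua) hvb huv
  · exact hc ha hua (h hvb) huv

theorem clique_image (X : Graph) (f : X.V → X.V)
    (hf : ∀ u v, X.G.Adj u v → f u = f v ∨ X.G.Adj (f u) (f v)) (s : Set X.V)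
    (hs : X.G.IsClique s) : X.G.IsClique (f '' s) := by
  rintro _ ⟨u, hu, rfl⟩ _ ⟨v, hv, rfl⟩ huv
  have huv' : u ≠ v := fun h => huv (by rw [h])
  rcases hf u v (hs hu hv huv') with h | h
  · exact absurd h huv
  · exact h

theorem maximal_nonempty (X : Graph) (hX : Nonempty X.V) (Q : Set X.V)
    (hQ : Maximal (fun s : Set X.V => X.G.IsClique s) Q) : Q.Nonempty := by
  by_contra h
  rw [Set.not_nonempty_iff_eq_empty] at h
  obtain ⟨v⟩ := hX
  have h1 : X.G.IsClique ({v} : Set X.V) := by
    intro a ha b hb hab
    exact absurd (by rw [Set.mem_singleton_iff.mp ha, Set.mem_singleton_iff.mp hb]) hab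
  have h2 := hQ.2 h1 (by rw [h]; exact Set.empty_subset _)
  have h3 := h2 (Set.mem_singleton v)
  rw [h] at h3
  exact h3

theorem far_cliqueGraph (X : Graph) (hX : Far X) : Far (cliqueGraph X) := by
  obtain ⟨hne, f, hf, hfar⟩ := hX
  constructor
  · obtain ⟨t, _, ht⟩ := exists_maximal_clique X ∅ (by intro a ha; exact absurd ha (by simp))
    exact ⟨⟨t, ht⟩⟩
  · have hex : ∀ Q : (cliqueGraph X).V, ∃ R : (cliqueGraph X).V, f '' Q.1 ⊆ R.1 := by
      intro Q
      obtain ⟨t, h1, h2⟩ := exists_maximal_clique X _ (clique_image X f hf Q.1 Q.2.1)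
      exact ⟨⟨t, h2⟩, h1⟩
    choose F hF using hex
    have hdisj : ∀ Q : (cliqueGraph X).V, ¬ (Q.1 ∩ (F Q).1).Nonempty := by
      rintro Q ⟨v, hv1, hv2⟩
      have h1 : f v ∈ (F Q).1 := hF Q ⟨v, hv1, rfl⟩
      exact (hfar v).2 ((F Q).2.1 hv2 h1 (fun h => (hfar v).1 h.symm))
    refine ⟨F, ?_, ?_⟩
    · intro Q R hQR
      by_cases hFQR : F Q = F R
      · exact Or.inl hFQR
      · right
        have h1 : (Q.1 ∩ R.1).Nonempty := by
          rcases ((SimpleGraph.fromRel_adj _ _ _).mp hQR).2 with h | h
          · exact h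
          · rw [Set.inter_comm]; exact h
        obtain ⟨v, hv1, hv2⟩ := h1
        exact (SimpleGraph.fromRel_adj _ _ _).mpr
          ⟨hFQR, Or.inl ⟨f v, hF Q ⟨v, hv1, rfl⟩, hF R ⟨v, hv2, rfl⟩⟩⟩
    · intro Q
      constructor
      · intro h
        apply hdisj Q
        rw [h, Set.inter_self]
        exact maximal_nonempty X hne Q.1 Q.2
      · intro h
        rcases ((SimpleGraph.fromRel_adj _ _ _).mp h).2 with h | h
        · exact hdisj Q h
        · rw [Set.inter_comm] at h; exact hdisj Q h

theorem far_iterClique (n : ℕ) (X : Graph) (hX : Far X) : Far (iterClique n X) := by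
  induction n with
  | zero => exact hX
  | succ n ih => exact far_cliqueGraph _ ih

theorem far_card_ne_one (X : Graph) (hX : Far X) : Nat.card X.V ≠ 1 := by
  intro h
  obtain ⟨⟨v⟩, f, _, hfar⟩ := hX
  have hs : Subsingleton X.V := (Nat.card_eq_one_iff_unique.mp h).1
  exact (hfar v).1 (Subsingleton.elim _ _)

/-! ### The face poset of the boundary of the square pyramid

Points: 0 is the apex, 1, 2, 3, 4 are the base vertices, 5, 6, 7, 8 are the lateral edges,
9, 10, 11, 12 are the base edges, 13, 14, 15, 16 are the triangles and 17 is the base. -/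

/-- Bit `j` of entry `i` says `i ≤ j`. -/
def ups : List ℕ := [123361, 209442, 157252, 183432, 235792, 73760, 24640, 49280, 98560, 139776,
  148480, 165888, 200704, 8192, 16384, 32768, 65536, 131072]

/-- Bit `j` of entry `i` says `j ≤ i`. -/
def dns : List ℕ := [1, 2, 4, 8, 16, 35, 69, 137, 273, 518, 1036, 2072, 4114, 8807, 17613, 35225,
  69939, 138782]

/-- The order relation. -/
def leN (i j : ℕ) : Bool := (ups.getD i 0).testBit j

/-- The points of the poset. -/
structure Pt where
  /-- the label -/
  val : Fin 18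
deriving DecidableEq, Fintype

instance : LE Pt := ⟨fun a b => leN a.val b.val = true⟩

theorem leN_refl : ∀ a : Fin 18, leN a a = true := by decide +kernel

theorem leN_trans : ∀ a b c : Fin 18, leN a b = true → leN b c = true → leN a c = true := by
  decide +kernel

theorem leN_antisymm : ∀ a b : Fin 18, leN a b = true → leN b a = true → a = b := by
  decide +kernel

theorem dns_spec : ∀ a b : Fin 18, (dns.getD a 0).testBit b = leN b a := by
  decide +kernel

instance : PartialOrder Pt where
  le_refl a := leN_refl a.val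
  le_trans a b c h1 h2 := leN_trans a.val b.val c.val h1 h2
  le_antisymm a b h1 h2 := by
    cases a; cases b
    exact congrArg Pt.mk (leN_antisymm _ _ h1 h2)

/-! ### Search for a fixed point free order-preserving map with domain propagation -/

/-- Union of the masks `M i` over `i < k` in `D`. -/
def unionOver (M : List ℕ) (D : ℕ) : ℕ → ℕ
  | 0 => 0
  | k + 1 => if D.testBit k then unionOver M D k ||| M.getD k 0 else unionOver M D k

/-- New domain of `j`. -/
def narrow (D : List ℕ) (j : ℕ) : ℕ → ℕ
  | 0 => D.getD j 0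
  | i + 1 =>
    if leN i j then narrow D j i &&& unionOver ups (D.getD i 0) 18
    else if leN j i then narrow D j i &&& unionOver dns (D.getD i 0) 18
    else narrow D j i

/-- One round of propagation. -/
def pass (D : List ℕ) : ℕ → List ℕ
  | 0 => D
  | j + 1 => (pass D j).set j (narrow (pass D j) j 18)

/-- Some domain is empty. -/
def dead (D : List ℕ) : Bool := (List.range 18).any fun v => D.getD v 0 == 0

/-- The search. -/
def search : List ℕ → List ℕ → Bool
  | [], D => dead (pass (pass D 18) 18)
  | v :: vs, D => dead (pass (pass D 18) 18) ||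
      (List.range 18).all fun w => !(((pass (pass D 18) 18).getD v 0).testBit w) ||
        search vs ((pass (pass D 18) 18).set v (2 ^ w))

theorem unionOver_spec (M : List ℕ) (D w k0 : ℕ) (h1 : D.testBit k0 = true)
    (h2 : (M.getD k0 0).testBit w = true) :
    ∀ k, k0 < k → (unionOver M D k).testBit w = true := by
  intro k
  induction k with
  | zero => intro h; exact absurd h (Nat.not_lt_zero _)
  | succ k ih =>
    intro h
    rw [unionOver]
    by_cases hk : k0 = k
    · subst hk
      rw [if_pos h1, Nat.testBit_or, h2, Bool.or_true]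
    · have h3 := ih (by omega)
      split_ifs
      · rw [Nat.testBit_or, h3, Bool.true_or]
      · exact h3

section

variable (g : ℕ → ℕ) (hg : ∀ v < 18, g v < 18)
  (hmono : ∀ u < 18, ∀ v < 18, leN u v = true → leN (g u) (g v) = true)

/-- `g` respects the domains. -/
def Inv (g : ℕ → ℕ) (D : List ℕ) : Prop := ∀ v < 18, (D.getD v 0).testBit (g v) = true

include hg hmono in
theorem narrow_spec (D : List ℕ) (hD : Inv g D) (j : ℕ) (hj : j < 18) :
    ∀ k ≤ 18, (narrow D j k).testBit (g j) = true := by
  intro k
  induction k with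
  | zero => intro _; exact hD j hj
  | succ i ih =>
    intro hi
    have h := ih (by omega)
    have hi' : i < 18 := by omega
    rw [narrow]
    split_ifs with h1 h2
    · rw [Nat.testBit_and, h, Bool.true_and]
      exact unionOver_spec ups _ _ (g i) (hD i hi') (hmono i hi' j hj h1) 18 (hg i hi')
    · rw [Nat.testBit_and, h, Bool.true_and]
      refine unionOver_spec dns _ _ (g i) (hD i hi') ?_ 18 (hg i hi')
      rw [dns_spec ⟨g i, hg i hi'⟩ ⟨g j, hg j hj⟩]
      exact hmono j hj i hi' h2
    · exact h

theorem inv_set (D : List ℕ) (hD : Inv g D) (j x : ℕ) (hx : x.testBit (g j) = true) :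
    Inv g (D.set j x) := by
  intro v hv
  rw [List.getD_eq_getElem?_getD, List.getElem?_set]
  by_cases h : j = v
  · subst h
    rw [if_pos rfl]
    split_ifs with h2
    · exact hx
    · exfalso
      have h3 := hD j hv
      rw [List.getD_eq_getElem?_getD, List.getElem?_eq_none (by omega)] at h3
      simp at h3
  · rw [if_neg h, ← List.getD_eq_getElem?_getD]
    exact hD v hv

include hg hmono in
theorem pass_spec (D : List ℕ) (hD : Inv g D) : ∀ k ≤ 18, Inv g (pass D k) := by
  intro k
  induction k with
  | zero => intro _; exact hD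
  | succ j ih =>
    intro hj
    have h := ih (by omega)
    exact inv_set g _ h j _ (narrow_spec g hg hmono _ h j (by omega) 18 (le_refl _))

theorem dead_spec (D : List ℕ) (hD : Inv g D) : dead D = false := by
  rw [← Bool.not_eq_true]
  intro h
  rw [dead, List.any_eq_true] at h
  obtain ⟨v, hv, h0⟩ := h
  have h1 := hD v (List.mem_range.mp hv)
  rw [beq_iff_eq.mp h0] at h1
  simp at h1

include hg hmono in
theorem search_spec : ∀ (vs : List ℕ) (_ : ∀ v ∈ vs, v < 18) (D : List ℕ), Inv g D →
    search vs D = false := by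
  intro vs
  induction vs with
  | nil =>
    intro _ D hD
    exact dead_spec g _ (pass_spec g hg hmono _ (pass_spec g hg hmono _ hD 18 (le_refl _)) 18
      (le_refl _))
  | cons v vs ih =>
    intro hvs D hD
    have hD2 := pass_spec g hg hmono _ (pass_spec g hg hmono _ hD 18 (le_refl _)) 18 (le_refl _)
    have hv := hvs v (by simp)
    rw [search, dead_spec g _ hD2, Bool.false_or, ← Bool.not_eq_true]
    intro h
    rw [List.all_eq_true] at h
    have h1 := h (g v) (List.mem_range.mpr (hg v hv))
    rw [hD2 v hv, Bool.not_true, Bool.false_or] at h1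
    have h2 := ih (fun u hu => hvs u (by simp [hu])) _
      (inv_set g _ hD2 v (2 ^ g v) (by rw [Nat.testBit_two_pow]; simp))
    rw [h2] at h1
    exact Bool.noConfusion h1

end

/-- The initial domains: `i` is not mapped to `i`. -/
def D0 : List ℕ := (List.range 18).map fun i => (2 ^ 18 - 1) - 2 ^ i

theorem D0_spec : ∀ v w : Fin 18, w ≠ v → (D0.getD v 0).testBit w = true := by
  decide +kernel

theorem search_true : search [9, 9, 1] D0 = true := by decide +kernel

theorem fpp : HasFPP Pt := by
  intro f hf
  by_contra hfix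
  let g : ℕ → ℕ := fun n => if h : n < 18 then ((f ⟨⟨n, h⟩⟩).val : ℕ) else 0
  have hgdef : ∀ n (h : n < 18), g n = ((f ⟨⟨n, h⟩⟩).val : ℕ) := fun n h => by
    simp only [g, dif_pos h]
  have hg : ∀ v < 18, g v < 18 := fun v hv => by
    rw [hgdef v hv]; exact (f ⟨⟨v, hv⟩⟩).val.2
  have hmono : ∀ u < 18, ∀ v < 18, leN u v = true → leN (g u) (g v) = true := by
    intro u hu v hv huv
    rw [hgdef u hu, hgdef v hv]
    exact hf (show (⟨⟨u, hu⟩⟩ : Pt) ≤ ⟨⟨v, hv⟩⟩ from huv)
  have hinv : Inv g D0 := by
    intro v hv
    have hne : (f ⟨⟨v, hv⟩⟩).val ≠ ⟨v, hv⟩ := by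
      intro h
      exact hfix ⟨⟨⟨v, hv⟩⟩, (show f ⟨⟨v, hv⟩⟩ = Pt.mk (f ⟨⟨v, hv⟩⟩).val from rfl).trans
        (congrArg Pt.mk h)⟩
    rw [hgdef v hv]
    exact D0_spec ⟨v, hv⟩ _ hne
  have h := search_spec g hg hmono [9, 9, 1] (by decide) D0 hinv
  rw [search_true] at h
  exact Bool.noConfusion h

/-- A self-duality of the pyramid that moves every face to an incomparable one. -/
def sigma (i : Fin 18) : Fin 18 :=
  (![17, 15, 16, 13, 14, 11, 12, 9, 10, 8, 5, 6, 7, 4, 1, 2, 3, 0] : Fin 18 → Fin 18) i

theorem sigma_adj : ∀ i j : Fin 18, leN i j = true →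
    leN (sigma i) (sigma j) = true ∨ leN (sigma j) (sigma i) = true := by
  decide +kernel

theorem sigma_far : ∀ i : Fin 18, sigma i ≠ i ∧ leN i (sigma i) = false ∧
    leN (sigma i) i = false := by
  decide +kernel

theorem far_pyramid : Far (comparabilityGraph Pt) := by
  refine ⟨⟨(⟨0⟩ : Pt)⟩, fun p => (⟨sigma p.val⟩ : Pt), ?_, ?_⟩
  · intro u v huv
    by_cases h : (⟨sigma (Pt.val u)⟩ : Pt) = ⟨sigma (Pt.val v)⟩
    · exact Or.inl h
    · right
      refine (SimpleGraph.fromRel_adj _ _ _).mpr ⟨h, ?_⟩
      rcases ((SimpleGraph.fromRel_adj _ _ _).mp huv).2 with h | h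
      · exact sigma_adj _ _ h
      · exact (sigma_adj _ _ h).symm
  · intro v
    obtain ⟨h1, h2, h3⟩ := sigma_far (Pt.val v)
    constructor
    · intro h
      exact h1 (congrArg Pt.val h)
    · intro h
      rcases ((SimpleGraph.fromRel_adj _ _ _).mp h).2 with h | h
      · exact Bool.noConfusion (h2.symm.trans h)
      · exact Bool.noConfusion (h3.symm.trans h)

/-- There is a finite poset (with 18 elements) that has the fixed point property but does not have
collapsing iterated clique graphs. -/
theorem result :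
    ∃ (P : Type) (_ : PartialOrder P),
      Nat.card P = 18 ∧ HasFPP P ∧ ¬ HasCollapsingCliqueGraphs P := by
  refine ⟨Pt, inferInstance, ?_, fpp, ?_⟩
  · rw [Nat.card_eq_fintype_card]
    decide +kernel
  · rintro ⟨n, hn⟩
    exact far_card_ne_one _ (far_iterClique n _ far_pyramid) hn

end Pool.Agent.Results.MP_c7efa6_co.SquarePyramid
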